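import Pool.Agent.TH845.Kad.Near

/-!
# Near-contractive homomorphisms of C*-algebras: the main theorem
-/

noncomputable section

namespace Pool.Agent.TH845.Kad

universe u v

/-- The constant in the estimate for the intertwiner. -/
def K1 : ℝ := K0 * (864 * 4 ^ 29) ^ 2 * 12

lemma K1_one : 1 ≤ K1 := by
  have := K0_one
  rw [K1]
  nlinarith

section

variable {B : Type v} [CStarAlgebra B] [PartialOrder B] [StarOrderedRing B]

/-- The square root for `P` with `‖P - 1‖ ≤ 1 / 2`. -/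
lemma root_near (R : B) {t : ℝ} (ht : t ≤ 1 / 2) (hR : ‖R - 1‖ ≤ t) :
    ∃ ξ : Bˣ, 0 ≤ (ξ : B) ∧
      ((ξ⁻¹ : Bˣ) : B) * ((ξ⁻¹ : Bˣ) : B) = (1 / 2 : ℂ) • (R + star R) ∧
      ‖(ξ : B) - 1‖ ≤ t ∧ ‖((ξ⁻¹ : Bˣ) : B) - 1‖ ≤ t := by
  have ht0 : 0 ≤ t := (norm_nonneg _).trans hR
  set P : B := (1 / 2 : ℂ) • (R + star R) with hP
  have hPsa : IsSelfAdjoint P := by
    rw [IsSelfAdjoint, hP, star_smul, star_add, star_star, add_comm (star R)]
    simp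
  have hP1 : ‖P - 1‖ ≤ t := by
    have e : P - 1 = (1 / 2 : ℂ) • ((R - 1) + star (R - 1)) := by
      rw [hP, star_sub, star_one]
      have : (1 : B) = (1 / 2 : ℂ) • ((1 : B) + 1) := by
        rw [← two_smul ℂ (1 : B), smul_smul]
        norm_num
      conv_lhs => rw [this]
      rw [← smul_sub]
      congr 1
      abel
    rw [e, norm_smul]
    have h1 : ‖(R - 1) + star (R - 1)‖ ≤ t + t :=
      (norm_add_le _ _).trans (add_le_add hR (by rw [norm_star]; exact hR))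
    have h2 : ‖(1 / 2 : ℂ)‖ = 1 / 2 := by norm_num
    rw [h2]
    linarith
  have hsp : ∀ x ∈ spectrum ℝ P, 0 < x := by
    intro x hx
    have e : P - 1 = cfc (fun x : ℝ => x - 1) P := by
      rw [cfc_sub (R := ℝ) (fun x => x) (fun _ => 1) P, cfc_id' ℝ P, cfc_const_one ℝ P]
    rw [e] at hP1
    have h1 : ‖x - 1‖ ≤ t := (norm_apply_le_norm_cfc (fun x : ℝ => x - 1) P hx).trans hP1
    rw [Real.norm_eq_abs, abs_le] at h1
    linarith
  obtain ⟨ξ, h1, h2, h3, -⟩ := root P hPsa hsp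
  exact ⟨ξ, h1, h2, (h3 t ht0 ht hP1).1, (h3 t ht0 ht hP1).2⟩

/-- The square root for `P = S' S'*`. -/
lemma root_far (S S' : B) (h1 : S * S' = 1) (h2 : S' * S = 1) :
    ∃ ξ : Bˣ, 0 ≤ (ξ : B) ∧ ((ξ⁻¹ : Bˣ) : B) * ((ξ⁻¹ : Bˣ) : B) = S' * star S' ∧
      ‖(ξ : B)‖ = ‖S‖ ∧ ‖((ξ⁻¹ : Bˣ) : B)‖ = ‖S'‖ := by
  have h1s : star S' * star S = 1 := by rw [← star_mul, h1, star_one]
  have h2s : star S * star S' = 1 := by rw [← star_mul, h2, star_one]
  have hsp : ∀ x ∈ spectrum ℝ (S' * star S'), 0 < x := by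
    intro x hx
    have h3 : S' * star S' = star (star S') * star S' := by rw [star_star]
    rw [h3] at hx
    exact (spec_star_mul (star S') (star S) h1s h2s hx).1
  obtain ⟨ξ, h3, h4, -⟩ := root (S' * star S') (IsSelfAdjoint.mul_star_self S') hsp
  have hsa : star (ξ : B) = ξ := (IsSelfAdjoint.of_nonneg h3).star_eq
  have hsa' : star ((ξ⁻¹ : Bˣ) : B) = ((ξ⁻¹ : Bˣ) : B) := by
    have h1 : star ((ξ⁻¹ : Bˣ) : B) * (ξ : B) = 1 := by
      calc star ((ξ⁻¹ : Bˣ) : B) * (ξ : B) = star ((ξ⁻¹ : Bˣ) : B) * star (ξ : B) := by rw [hsa]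
        _ = star ((ξ : B) * ((ξ⁻¹ : Bˣ) : B)) := (star_mul _ _).symm
        _ = 1 := by rw [Units.mul_inv, star_one]
    exact (Units.inv_eq_of_mul_eq_one_left h1).symm
  refine ⟨ξ, h3, h4, ?_, ?_⟩
  · have e1 : (ξ : B) * (ξ : B) * (S' * star S') = 1 := by
      rw [← h4]
      simp only [mul_assoc, Units.mul_inv_cancel_left, Units.mul_inv]
    have e2 : (ξ : B) * (ξ : B) = star S * S := by
      calc (ξ : B) * (ξ : B) = (ξ : B) * (ξ : B) * (S' * (star S' * star S) * S) := by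
            rw [h1s, mul_one, h2, mul_one]
        _ = ((ξ : B) * (ξ : B) * (S' * star S')) * (star S * S) := by noncomm_ring
        _ = star S * S := by rw [e1, one_mul]
    have e3 : ‖(ξ : B)‖ * ‖(ξ : B)‖ = ‖S‖ * ‖S‖ := by
      rw [← CStarRing.norm_star_mul_self, hsa, e2, CStarRing.norm_star_mul_self]
    exact (mul_self_inj (norm_nonneg _) (norm_nonneg _)).1 e3
  · have e3 : ‖((ξ⁻¹ : Bˣ) : B)‖ * ‖((ξ⁻¹ : Bˣ) : B)‖ = ‖S'‖ * ‖S'‖ := by
      rw [← CStarRing.norm_star_mul_self, hsa', h4, CStarRing.norm_self_mul_star]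
    exact (mul_self_inj (norm_nonneg _) (norm_nonneg _)).1 e3

end

/-- The operator `S' S'*` intertwines `u` and its adjoint. -/
lemma far_intertwines {A : Type u} [CStarAlgebra A] {B : Type v} [CStarAlgebra B]
    (u : A →ₐ[ℂ] B) (S S' : B) (h1 : S * S' = 1)
    (h2 : S' * S = 1) (h5 : ∀ a, star (S * u a * S') = S * u (star a) * S') (y : A) :
    u y * (S' * star S') = S' * star S' * star (u (star y)) := by
  have e0 := h5 (star y)
  rw [star_star] at e0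
  have h1s : star S' * star S = 1 := by rw [← star_mul, h1, star_one]
  have h2s : star S * star S' = 1 := by rw [← star_mul, h2, star_one]
  calc u y * (S' * star S') = (S' * S) * u y * (S' * star S') := by rw [h2, one_mul]
    _ = S' * (S * u y * S') * star S' := by noncomm_ring
    _ = S' * star (S * u (star y) * S') * star S' := by rw [e0]
    _ = S' * (star S' * star (u (star y)) * star S) * star S' := by
        rw [star_mul, star_mul, mul_assoc (star S')]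
    _ = S' * star S' * star (u (star y)) * (star S * star S') := by noncomm_ring
    _ = S' * star S' * star (u (star y)) := by rw [h2s, mul_one]

/-- The constant of the main theorem. -/
def K2 : ℝ := K1 ^ 2 + 4 * (864 * 2 ^ 29) * (1 + 2 * K1) ^ 2

section

variable (A : Type) [CStarAlgebra A]
variable (H : Type) [NormedAddCommGroup H] [InnerProductSpace ℂ H] [CompleteSpace H]

theorem near_contractive (u : A →ₐ[ℂ] (H →L[ℂ] H)) (c : ℝ) (hc : 1 ≤ c)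
    (hu : ∀ x : A, ‖u x‖ ≤ c * ‖x‖) :
    ∃ ξ : (H →L[ℂ] H)ˣ, (ξ : H →L[ℂ] H).IsPositive ∧
      ‖(ξ : H →L[ℂ] H) - 1‖ ^ 2 ≤ K2 * (c - 1) ^ 2 * c ^ 27 ∧
      ‖((ξ⁻¹ : (H →L[ℂ] H)ˣ) : H →L[ℂ] H) - 1‖ ^ 2 ≤ K2 * (c - 1) ^ 2 * c ^ 27 ∧
      ∀ x : A, (ξ : H →L[ℂ] H) * u (star x) * ((ξ⁻¹ : (H →L[ℂ] H)ˣ) : H →L[ℂ] H)
        = star ((ξ : H →L[ℂ] H) * u x * ((ξ⁻¹ : (H →L[ℂ] H)ˣ) : H →L[ℂ] H)) := by
  have hK1 := K1_one
  have hc27 : (1 : ℝ) ≤ c ^ 27 := one_le_pow₀ hc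
  obtain ⟨S, S', h1, h2, h3, h4, h5⟩ := H770R2.Kad.fin_similar A H u.toLinearMap
    ⟨fun a b => map_mul u a b, map_one u⟩ c hc hu
  rcases le_or_gt (K1 * (c - 1)) (1 / 2) with hsmall | hlarge
  · have hc2 : c ≤ 2 := by nlinarith
    have hd : (0 : ℝ) ≤ 12 * (c - 1) := by linarith
    have hD : ∀ x, ‖defect u x‖ ≤ 12 * (c - 1) * ‖x‖ := by
      intro x
      refine (norm_defect_le u hc hu x).trans (mul_le_mul_of_nonneg_right ?_ (norm_nonneg _))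
      nlinarith [mul_nonneg (sub_nonneg.2 hc) (sub_nonneg.2 hc2),
        mul_nonneg (mul_nonneg (sub_nonneg.2 hc) (sub_nonneg.2 hc2)) (by linarith : 0 ≤ c)]
    obtain ⟨R, hR, hRu⟩ := intertwiner u S S' h1 h2 h5 hd hD
    have h6 : (2 * c) ^ 29 ≤ 4 ^ 29 := pow_le_pow_left₀ (by linarith) (by linarith) _
    have h7 : ‖S‖ ^ 2 * ‖S'‖ ^ 2 ≤ (864 * 4 ^ 29) ^ 2 := by
      rw [sq (864 * 4 ^ 29 : ℝ)]
      have h8 : (864 : ℝ) * (2 * c) ^ 29 ≤ 864 * 4 ^ 29 := by linarith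
      exact mul_le_mul (h3.trans h8) (h4.trans h8) (by positivity) (by positivity)
    have hR' : ‖R - 1‖ ≤ K1 * (c - 1) := by
      refine hR.trans ?_
      have hK0 : 0 ≤ K0 := zero_le_one.trans K0_one
      calc K0 * (‖S‖ ^ 2 * ‖S'‖ ^ 2) * (12 * (c - 1))
          ≤ K0 * (864 * 4 ^ 29) ^ 2 * (12 * (c - 1)) := by gcongr
        _ = K1 * (c - 1) := by rw [K1]; ring
    obtain ⟨ξ, g1, g2, g3, g4⟩ := root_near R hsmall hR'
    have hK2 : (K1 * (c - 1)) ^ 2 ≤ K2 * (c - 1) ^ 2 * c ^ 27 := by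
      have e1 : K1 ^ 2 ≤ K2 := by
        rw [K2]
        have : 0 ≤ 4 * (864 * 2 ^ 29) * (1 + 2 * K1) ^ 2 := by positivity
        linarith
      calc (K1 * (c - 1)) ^ 2 = K1 ^ 2 * (c - 1) ^ 2 * 1 := by ring
        _ ≤ K2 * (c - 1) ^ 2 * c ^ 27 := by
            have : 0 ≤ K2 := (sq_nonneg _).trans e1
            gcongr
    refine ⟨ξ, (ContinuousLinearMap.nonneg_iff_isPositive _).1 g1, ?_, ?_, ?_⟩
    · exact (pow_le_pow_left₀ (norm_nonneg _) g3 2).trans hK2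
    · exact (pow_le_pow_left₀ (norm_nonneg _) g4 2).trans hK2
    · refine fun x => sim_of_root u _ ξ (IsSelfAdjoint.of_nonneg g1).star_eq g2 (fun y => ?_) x
      have e1 := hRu y
      have e2 := congrArg star (hRu (star y))
      rw [star_mul, star_mul, star_star, star_star] at e2
      rw [mul_smul_comm, smul_mul_assoc, mul_add, add_mul, e1, ← e2]
  · obtain ⟨ξ, g1, g2, g3, g4⟩ := root_far S S' h1 h2
    have hcc : c ≤ (1 + 2 * K1) * (c - 1) := by nlinarith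
    have hfin : ∀ z : H →L[ℂ] H, ‖z‖ ^ 2 ≤ 864 * (2 * c) ^ 29 →
        ‖z - 1‖ ^ 2 ≤ K2 * (c - 1) ^ 2 * c ^ 27 := by
      intro z hz
      have e1 : ‖z - 1‖ ≤ ‖z‖ + 1 := by
        refine (norm_sub_le _ _).trans ?_
        have : ‖(1 : H →L[ℂ] H)‖ ≤ 1 := ContinuousLinearMap.norm_id_le
        linarith
      have e2 : ‖z - 1‖ ^ 2 ≤ 2 * ‖z‖ ^ 2 + 2 := by
        have := pow_le_pow_left₀ (norm_nonneg _) e1 2
        nlinarith [sq_nonneg (‖z‖ - 1)]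
      have e3 : (1 : ℝ) ≤ (2 * c) ^ 29 := one_le_pow₀ (by linarith)
      have e4 : ‖z - 1‖ ^ 2 ≤ 4 * (864 * (2 * c) ^ 29) := by linarith
      have e5 : c ^ 2 ≤ ((1 + 2 * K1) * (c - 1)) ^ 2 := pow_le_pow_left₀ (by linarith) hcc 2
      calc ‖z - 1‖ ^ 2 ≤ 4 * (864 * (2 * c) ^ 29) := e4
        _ = 4 * (864 * 2 ^ 29) * c ^ 2 * c ^ 27 := by ring
        _ ≤ 4 * (864 * 2 ^ 29) * ((1 + 2 * K1) * (c - 1)) ^ 2 * c ^ 27 := by gcongr
        _ = 4 * (864 * 2 ^ 29) * (1 + 2 * K1) ^ 2 * (c - 1) ^ 2 * c ^ 27 := by ring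
        _ ≤ K2 * (c - 1) ^ 2 * c ^ 27 := by
            have : 4 * (864 * 2 ^ 29) * (1 + 2 * K1) ^ 2 ≤ K2 := by
              rw [K2]
              nlinarith [sq_nonneg K1]
            gcongr
    refine ⟨ξ, (ContinuousLinearMap.nonneg_iff_isPositive _).1 g1, hfin _ (by rw [g3]; exact h3),
      hfin _ (by rw [g4]; exact h4), ?_⟩
    refine fun x => sim_of_root u _ ξ (IsSelfAdjoint.of_nonneg g1).star_eq g2 (fun y => ?_) x
    exact far_intertwines u S S' h1 h2 h5 y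

/-- The constant in the estimate for nearly *-preserving homomorphisms. -/
def K3 : ℝ := K0 * (864 * 2 ^ 29) ^ 2

theorem near_star (u : A →ₐ[ℂ] (H →L[ℂ] H)) (c : ℝ) (hc : 1 ≤ c)
    (hu : ∀ x : A, ‖u x‖ ≤ c * ‖x‖) (d : ℝ) (hd : 0 ≤ d)
    (hD : ∀ x : A, ‖u (star x) - star (u x)‖ ≤ d * ‖x‖) :
    ∃ ξ : (H →L[ℂ] H)ˣ, (ξ : H →L[ℂ] H).IsPositive ∧
      ‖(ξ : H →L[ℂ] H) - 1‖ ≤ 2 ^ 22 * K3 * c ^ 73 * d ∧
      ‖((ξ⁻¹ : (H →L[ℂ] H)ˣ) : H →L[ℂ] H) - 1‖ ≤ 2 ^ 22 * K3 * c ^ 73 * d ∧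
      ∀ x : A, (ξ : H →L[ℂ] H) * u (star x) * ((ξ⁻¹ : (H →L[ℂ] H)ˣ) : H →L[ℂ] H)
        = star ((ξ : H →L[ℂ] H) * u x * ((ξ⁻¹ : (H →L[ℂ] H)ˣ) : H →L[ℂ] H)) := by
  have hK0 := K0_one
  have hK3 : 1 ≤ K3 := by
    rw [K3]
    nlinarith
  obtain ⟨S, S', h1, h2, h3, h4, h5⟩ := H770R2.Kad.fin_similar A H u.toLinearMap
    ⟨fun a b => map_mul u a b, map_one u⟩ c hc hu
  rcases le_or_gt (K3 * c ^ 58 * d) (1 / 2) with hsmall | hlarge
  · have hD' : ∀ x, ‖defect u x‖ ≤ d * ‖x‖ := by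
      intro x
      have e : defect u x = -star (u (star x) - star (u x)) := by
        rw [defect_apply, star_sub, star_star]
        abel
      rw [e, norm_neg, norm_star]
      exact hD x
    obtain ⟨R, hR, hRu⟩ := intertwiner u S S' h1 h2 h5 hd hD'
    have h7 : ‖S‖ ^ 2 * ‖S'‖ ^ 2 ≤ (864 * (2 * c) ^ 29) ^ 2 := by
      rw [sq (864 * (2 * c) ^ 29 : ℝ)]
      exact mul_le_mul h3 h4 (by positivity) (by positivity)
    have hR' : ‖R - 1‖ ≤ K3 * c ^ 58 * d := by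
      refine hR.trans ?_
      calc K0 * (‖S‖ ^ 2 * ‖S'‖ ^ 2) * d
          ≤ K0 * (864 * (2 * c) ^ 29) ^ 2 * d := by gcongr
        _ = K3 * c ^ 58 * d := by rw [K3]; ring
    obtain ⟨ξ, g1, g2, g3, g4⟩ := root_near R hsmall hR'
    have hK2 : K3 * c ^ 58 * d ≤ 2 ^ 22 * K3 * c ^ 73 * d := by
      calc K3 * c ^ 58 * d = 1 * K3 * c ^ 58 * d := by ring
        _ ≤ 2 ^ 22 * K3 * c ^ 73 * d := by
            have : c ^ 58 ≤ c ^ 73 := pow_le_pow_right₀ hc (by norm_num)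
            gcongr
            norm_num
    refine ⟨ξ, (ContinuousLinearMap.nonneg_iff_isPositive _).1 g1, g3.trans hK2, g4.trans hK2, ?_⟩
    refine fun x => sim_of_root u _ ξ (IsSelfAdjoint.of_nonneg g1).star_eq g2 (fun y => ?_) x
    have e1 := hRu y
    have e2 := congrArg star (hRu (star y))
    rw [star_mul, star_mul, star_star, star_star] at e2
    rw [mul_smul_comm, smul_mul_assoc, mul_add, add_mul, e1, ← e2]
  · obtain ⟨ξ, g1, g2, g3, g4⟩ := root_far S S' h1 h2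
    have hfin : ∀ z : H →L[ℂ] H, ‖z‖ ^ 2 ≤ 864 * (2 * c) ^ 29 →
        ‖z - 1‖ ≤ 2 ^ 22 * K3 * c ^ 73 * d := by
      intro z hz
      have e0 : ‖z‖ ^ 2 ≤ (2 ^ 20 * c ^ 15) ^ 2 := by
        refine hz.trans ?_
        calc (864 : ℝ) * (2 * c) ^ 29 = 864 * 2 ^ 29 * c ^ 29 := by ring
          _ ≤ 2 ^ 40 * c ^ 30 := by
              have : c ^ 29 ≤ c ^ 30 := pow_le_pow_right₀ hc (by norm_num)
              gcongr
              norm_num
          _ = (2 ^ 20 * c ^ 15) ^ 2 := by ring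
      have e1 : ‖z‖ ≤ 2 ^ 20 * c ^ 15 := le_of_sq_le_sq e0 (by positivity)
      have e2 : (1 : ℝ) ≤ c ^ 15 := one_le_pow₀ hc
      have e3 : ‖z - 1‖ ≤ 2 ^ 21 * c ^ 15 := by
        refine (norm_sub_le _ _).trans ?_
        have : ‖(1 : H →L[ℂ] H)‖ ≤ 1 := ContinuousLinearMap.norm_id_le
        linarith
      refine e3.trans ?_
      calc 2 ^ 21 * c ^ 15 = 2 ^ 22 * c ^ 15 * (1 / 2) := by ring
        _ ≤ 2 ^ 22 * c ^ 15 * (K3 * c ^ 58 * d) := by gcongr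
        _ = 2 ^ 22 * K3 * c ^ 73 * d := by ring
    refine ⟨ξ, (ContinuousLinearMap.nonneg_iff_isPositive _).1 g1, hfin _ (by rw [g3]; exact h3),
      hfin _ (by rw [g4]; exact h4), ?_⟩
    refine fun x => sim_of_root u _ ξ (IsSelfAdjoint.of_nonneg g1).star_eq g2 (fun y => ?_) x
    exact far_intertwines u S S' h1 h2 h5 y

end

end Pool.Agent.TH845.Kad
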