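import Mathlib.Analysis.CStarAlgebra.Classes

/-!
# Homomorphisms near to *-homomorphisms: definitions
-/

set_option autoImplicit false

universe u v

namespace Pool.Agent.TH845.Kad

variable {A : Type u} {B : Type v} [CStarAlgebra A] [CStarAlgebra B]

/-- `‖u(x)‖ ≤ c ‖x‖` for all `x`. -/
def BoundedBy (u : A →ₐ[ℂ] B) (c : ℝ) : Prop := ∀ x, ‖u x‖ ≤ c * ‖x‖

/-- `‖u(x*) - u(x)*‖ ≤ d ‖x‖` for all `x`. -/
def DefectBoundedBy (u : A →ₐ[ℂ] B) (d : ℝ) : Prop := ∀ x, ‖u (star x) - star (u x)‖ ≤ d * ‖x‖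

/-- There is a positive invertible element `ξ` with `‖ξ - 1‖ ≤ r` and `‖ξ⁻¹ - 1‖ ≤ r` such that
`x ↦ ξ u(x) ξ⁻¹` preserves adjoints. -/
def StarWithin (u : A →ₐ[ℂ] B) (r : ℝ) : Prop :=
  ∃ ξ : Bˣ, (∃ η : B, ξ.val = star η * η) ∧ ‖ξ.val - 1‖ ≤ r ∧ ‖ξ.inv - 1‖ ≤ r ∧
    ∀ x : A, ξ.val * u (star x) * ξ.inv = star (ξ.val * u x * ξ.inv)

end Pool.Agent.TH845.Kad
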