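import Pool.Agent.TH845.Kad.Pure
import Pool.Agent.H770R2.Kad.HAsm
import Pool.Agent.H759R2.Kad.Inner

/-!
# Near-contractive homomorphisms of C*-algebras
-/

noncomputable section

namespace Pool.Agent.TH845.Kad

universe u v

/-- The constant of the derivation theorem. -/
def K0 : ℝ := 5184 * 6 ^ 25 * 8 ^ 77

lemma K0_one : 1 ≤ K0 := by
  rw [K0]
  norm_num

section

variable {A : Type u} [CStarAlgebra A]
variable {H : Type v} [NormedAddCommGroup H] [InnerProductSpace ℂ H] [CompleteSpace H]

/-- The *-homomorphism `S u S⁻¹`. -/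
def conjHom (u : A →ₐ[ℂ] (H →L[ℂ] H)) (S S' : H →L[ℂ] H) (h2 : S' * S = 1)
    (hs : ∀ a, star (S * u a * S') = S * u (star a) * S') : A →⋆ₙₐ[ℂ] (H →L[ℂ] H) where
  toFun a := S * u a * S'
  map_smul' c a := by
    simp only [map_smul, mul_smul_comm, smul_mul_assoc, MonoidHom.id_apply]
  map_zero' := by
    rw [map_zero, mul_zero, zero_mul]
  map_add' a b := by
    rw [map_add, mul_add, add_mul]
  map_mul' a b := by
    rw [map_mul]
    calc S * (u a * u b) * S' = S * u a * 1 * u b * S' := by noncomm_ring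
      _ = S * u a * (S' * S) * u b * S' := by rw [h2]
      _ = S * u a * S' * (S * u b * S') := by noncomm_ring
  map_star' a := (hs a).symm

lemma conjHom_apply (u : A →ₐ[ℂ] (H →L[ℂ] H)) (S S' : H →L[ℂ] H) (h2 : S' * S = 1)
    (hs : ∀ a, star (S * u a * S') = S * u (star a) * S') (a : A) :
    conjHom u S S' h2 hs a = S * u a * S' := rfl

/-- There is an operator near to `1` which intertwines `u` and its adjoint homomorphism, if the
defect of `u` is small. -/
lemma intertwiner (u : A →ₐ[ℂ] (H →L[ℂ] H)) (S S' : H →L[ℂ] H) (h1 : S * S' = 1)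
    (h2 : S' * S = 1) (hs : ∀ a, star (S * u a * S') = S * u (star a) * S') {d : ℝ} (hd : 0 ≤ d)
    (hD : ∀ x, ‖defect u x‖ ≤ d * ‖x‖) :
    ∃ R : H →L[ℂ] H, ‖R - 1‖ ≤ K0 * (‖S‖ ^ 2 * ‖S'‖ ^ 2) * d ∧
      ∀ x, u x * R = R * star (u (star x)) := by
  have h1s : star S' * star S = 1 := by rw [← star_mul, h1, star_one]
  have h2s : star S * star S' = 1 := by rw [← star_mul, h2, star_one]
  set π := conjHom u S S' h2 hs with hπ
  have hπa : ∀ a, π a = S * u a * S' := fun a => rfl
  have hπu : ∀ a, u a = S' * π a * S := by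
    intro a
    rw [hπa]
    calc u a = 1 * u a * 1 := by rw [one_mul, mul_one]
      _ = (S' * S) * u a * (S' * S) := by rw [h2]
      _ = S' * (S * u a * S') * S := by noncomm_ring
  have hπv : ∀ a, star (u (star a)) = star S * π a * star S' := by
    intro a
    rw [hπu (star a), star_mul, star_mul, map_star, star_star, mul_assoc]
  set g : H →L[ℂ] H := S * star S with hg
  have hformula : ∀ a, S * defect u a * star S = π a * g - g * π a := by
    intro a
    rw [defect_apply, hπu a, hπv a, mul_sub, sub_mul, hg]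
    have e1 : S * (S' * π a * S) * star S = π a * (S * star S) := by
      calc S * (S' * π a * S) * star S = (S * S') * π a * (S * star S) := by noncomm_ring
        _ = _ := by rw [h1, one_mul]
    have e2 : S * (star S * π a * star S') * star S = S * star S * π a := by
      calc S * (star S * π a * star S') * star S = S * star S * π a * (star S' * star S) := by
            noncomm_ring
        _ = _ := by rw [h1s, mul_one]
    rw [e1, e2]
  set δ0 : A →ₗ[ℂ] (H →L[ℂ] H) :=
    (LinearMap.mulLeftRight ℂ (S, star S)) ∘ₗ defect u with hδ0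
  have hδ0a : ∀ a, δ0 a = S * defect u a * star S := fun a => by
    rw [hδ0, LinearMap.comp_apply, LinearMap.mulLeftRight_apply]
  have hbd : ∀ a, ‖δ0 a‖ ≤ (‖S‖ ^ 2 * d) * ‖a‖ := by
    intro a
    rw [hδ0a]
    refine (norm_mul_le _ _).trans ?_
    rw [norm_star]
    refine (mul_le_mul_of_nonneg_right (norm_mul_le _ _) (norm_nonneg _)).trans ?_
    have := hD a
    calc ‖S‖ * ‖defect u a‖ * ‖S‖ ≤ ‖S‖ * (d * ‖a‖) * ‖S‖ := by gcongr
      _ = (‖S‖ ^ 2 * d) * ‖a‖ := by ring
  set δ : A →L[ℂ] (H →L[ℂ] H) := δ0.mkContinuous _ hbd with hδ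
  have hδa : ∀ a, δ a = π a * g - g * π a := fun a => by
    rw [← hformula, ← hδ0a]
    rfl
  have hδn : ‖δ‖ ≤ ‖S‖ ^ 2 * d := δ0.mkContinuous_norm_le (by positivity) hbd
  obtain ⟨T, hTn, hT⟩ := H759R2.Kad.inner_bound A H π δ (fun a b => by
    rw [hδa, hδa, hδa, map_mul]
    noncomm_ring)
  refine ⟨S' * (g - T) * star S', ?_, ?_⟩
  · have e : S' * (g - T) * star S' - 1 = -(S' * T * star S') := by
      have e1 : S' * g * star S' = 1 := by
        rw [hg]
        calc S' * (S * star S) * star S' = (S' * S) * (star S * star S') := by noncomm_ring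
          _ = 1 := by rw [h2, h2s, one_mul]
      rw [mul_sub, sub_mul, e1]
      abel
    rw [e, norm_neg]
    refine (norm_mul_le _ _).trans ?_
    rw [norm_star]
    refine (mul_le_mul_of_nonneg_right (norm_mul_le _ _) (norm_nonneg _)).trans ?_
    have hT2 : ‖T‖ ≤ K0 * (‖S‖ ^ 2 * d) := by
      refine hTn.trans ?_
      rw [← K0]
      exact mul_le_mul_of_nonneg_left hδn (zero_le_one.trans K0_one)
    calc ‖S'‖ * ‖T‖ * ‖S'‖ ≤ ‖S'‖ * (K0 * (‖S‖ ^ 2 * d)) * ‖S'‖ := by gcongr
      _ = K0 * (‖S‖ ^ 2 * ‖S'‖ ^ 2) * d := by ring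
  · intro x
    have hc : π x * (g - T) = (g - T) * π x := by
      have h3 := hT x
      rw [hδa] at h3
      rw [mul_sub, sub_mul]
      rw [sub_eq_sub_iff_add_eq_add] at h3 ⊢
      rw [h3]
      abel
    rw [hπu x, hπv x]
    calc S' * π x * S * (S' * (g - T) * star S') = S' * π x * (S * S') * (g - T) * star S' := by
          noncomm_ring
      _ = S' * (π x * (g - T)) * star S' := by rw [h1]; noncomm_ring
      _ = S' * ((g - T) * π x) * star S' := by rw [hc]
      _ = S' * (g - T) * (star S' * star S) * π x * star S' := by rw [h1s]; noncomm_ring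
      _ = S' * (g - T) * star S' * (star S * π x * star S') := by noncomm_ring

end

end Pool.Agent.TH845.Kad
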