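import Mathlib.Analysis.CStarAlgebra.Unitary.Span
import Mathlib.Analysis.CStarAlgebra.ContinuousFunctionalCalculus.Isometric
import Mathlib.Analysis.CStarAlgebra.ContinuousFunctionalCalculus.Instances
import Mathlib.Analysis.CStarAlgebra.ContinuousFunctionalCalculus.Commute

/-!
# Near-contractive homomorphisms of C*-algebras: elementary estimates in a C*-algebra
-/

noncomputable section

namespace Pool.Agent.TH845.Kad

universe u v

section

variable {B : Type v} [CStarAlgebra B]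

/-- The spectrum of `y* y`, where `y` is invertible. -/
lemma spec_star_mul (y y' : B) (h : y * y' = 1) (h' : y' * y = 1) {x : ℝ}
    (hx : x ∈ spectrum ℝ (star y * y)) : 0 < x ∧ x ≤ ‖y‖ ^ 2 ∧ x⁻¹ ≤ ‖y'‖ ^ 2 := by
  have hnt : Nontrivial B := by
    by_contra hn
    rw [not_nontrivial_iff_subsingleton] at hn
    have : spectrum ℝ (star y * y) = ∅ := by
      ext r
      simp only [Set.mem_empty_iff_false, iff_false, spectrum.mem_iff, not_not]
      exact isUnit_of_subsingleton _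
    rw [this] at hx
    exact hx
  set p : B := star y * y with hp
  set q : B := y' * star y' with hq
  have hs : star y' * star y = 1 := by rw [← star_mul, h, star_one]
  have hs' : star y * star y' = 1 := by rw [← star_mul, h', star_one]
  have hpq : p * q = 1 := by
    rw [hp, hq]
    calc star y * y * (y' * star y') = star y * (y * y') * star y' := by noncomm_ring
      _ = 1 := by rw [h, mul_one, hs']
  have hqp : q * p = 1 := by
    rw [hp, hq]
    calc y' * star y' * (star y * y) = y' * (star y' * star y) * y := by noncomm_ring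
      _ = 1 := by rw [hs, mul_one, h']
  have hx0 : 0 ≤ x := spectrum_star_mul_self_nonneg x hx
  have hxp : x ≤ ‖p‖ := (le_abs_self x).trans (spectrum.norm_le_norm_of_mem hx)
  have hxne : x ≠ 0 := by
    rintro rfl
    rw [spectrum.zero_mem_iff] at hx
    exact hx ⟨⟨p, q, hpq, hqp⟩, rfl⟩
  have hxq : x⁻¹ ∈ spectrum ℝ q := by
    have h1 : (Units.mk0 x hxne)⁻¹ • (1 : ℝ) = x⁻¹ := by
      simp [Units.smul_def]
    have h2 := (spectrum.inv_mem_iff (r := Units.mk0 x hxne) (a := (⟨p, q, hpq, hqp⟩ : Bˣ))).1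
      (by simpa using hx)
    simpa using h2
  refine ⟨lt_of_le_of_ne hx0 (Ne.symm hxne), ?_, ?_⟩
  · rwa [hp, CStarRing.norm_star_mul_self, ← sq] at hxp
  · have h3 : x⁻¹ ≤ ‖q‖ := (le_abs_self _).trans (spectrum.norm_le_norm_of_mem hxq)
    rwa [hq, CStarRing.norm_self_mul_star, ← sq] at h3

/-- If `y` is invertible and `y`, `y⁻¹` have norm at most `c`, then `y*` is close to `y⁻¹`. -/
lemma norm_star_sub_inv_le (y y' : B) (h : y * y' = 1) (h' : y' * y = 1) {c : ℝ} (hc : 1 ≤ c)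
    (hy : ‖y‖ ≤ c) (hy' : ‖y'‖ ≤ c) : ‖star y - y'‖ ≤ (c ^ 2 - 1) * c := by
  have hsa : IsSelfAdjoint (star y * y) := IsSelfAdjoint.star_mul_self y
  have hc2 : 0 ≤ c ^ 2 - 1 := by nlinarith
  have e1 : star y - y' = (star y * y - 1) * y' := by
    rw [sub_mul, mul_assoc, h, mul_one, one_mul]
  have e2 : star y * y - 1 = cfc (fun x : ℝ => x - 1) (star y * y) := by
    rw [cfc_sub (R := ℝ) (fun x => x) (fun _ => 1) (star y * y), cfc_id' ℝ (star y * y),
      cfc_const_one ℝ (star y * y)]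
  have e3 : ‖star y * y - 1‖ ≤ c ^ 2 - 1 := by
    rw [e2]
    refine norm_cfc_le hc2 fun x hx => ?_
    obtain ⟨h1, h2, h3⟩ := spec_star_mul y y' h h' hx
    rw [Real.norm_eq_abs, abs_le]
    have h4 : x ≤ c ^ 2 := h2.trans (by gcongr)
    have h5 : x⁻¹ ≤ c ^ 2 := h3.trans (by gcongr)
    have h6 : 1 ≤ c ^ 2 * x := by
      rw [inv_le_iff_one_le_mul₀ h1] at h5
      exact h5
    constructor
    · nlinarith [mul_nonneg hc2 h1.le]
    · linarith
  rw [e1]
  refine (norm_mul_le _ _).trans ?_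
  exact mul_le_mul e3 hy' (norm_nonneg _) hc2

/-- The positive square root of `P⁻¹`, for `P` near to `1`. -/
lemma root [PartialOrder B] [StarOrderedRing B] (P : B) (hP : IsSelfAdjoint P)
    (hs : ∀ x ∈ spectrum ℝ P, 0 < x) :
    ∃ ξ : Bˣ, 0 ≤ (ξ : B) ∧ ((ξ⁻¹ : Bˣ) : B) * ((ξ⁻¹ : Bˣ) : B) = P ∧
      (∀ t : ℝ, 0 ≤ t → t ≤ 1 / 2 → ‖P - 1‖ ≤ t →
        ‖(ξ : B) - 1‖ ≤ t ∧ ‖((ξ⁻¹ : Bˣ) : B) - 1‖ ≤ t) ∧
      ∀ b : B, Commute P b → Commute (ξ : B) b := by
  have hc1 : ContinuousOn (fun x : ℝ => √x) (spectrum ℝ P) := Real.continuous_sqrt.continuousOn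
  have hc2 : ContinuousOn (fun x : ℝ => (√x)⁻¹) (spectrum ℝ P) :=
    hc1.inv₀ fun x hx => (Real.sqrt_pos.2 (hs x hx)).ne'
  have e1 : cfc (fun x : ℝ => (√x)⁻¹) P * cfc (fun x : ℝ => √x) P = 1 := by
    rw [← cfc_mul (fun x : ℝ => (√x)⁻¹) (fun x : ℝ => √x) P hc2 hc1]
    rw [← cfc_one ℝ P]
    exact cfc_congr fun x hx => inv_mul_cancel₀ (Real.sqrt_pos.2 (hs x hx)).ne'
  have e2 : cfc (fun x : ℝ => √x) P * cfc (fun x : ℝ => (√x)⁻¹) P = 1 := by
    rw [← cfc_mul (fun x : ℝ => √x) (fun x : ℝ => (√x)⁻¹) P hc1 hc2]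
    rw [← cfc_one ℝ P]
    exact cfc_congr fun x hx => mul_inv_cancel₀ (Real.sqrt_pos.2 (hs x hx)).ne'
  have e3 : cfc (fun x : ℝ => √x) P * cfc (fun x : ℝ => √x) P = P := by
    rw [← cfc_mul (fun x : ℝ => √x) (fun x : ℝ => √x) P hc1 hc1]
    conv_rhs => rw [← cfc_id ℝ P]
    exact cfc_congr fun x hx => Real.mul_self_sqrt (hs x hx).le
  refine ⟨⟨cfc (fun x : ℝ => (√x)⁻¹) P, cfc (fun x : ℝ => √x) P, e1, e2⟩, ?_, e3, ?_,
    fun b hb => Commute.cfc_real hb _⟩
  · exact cfc_nonneg fun x _ => inv_nonneg.2 (Real.sqrt_nonneg x)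
  · intro t ht0 ht ht'
    have hP1 : P - 1 = cfc (fun x : ℝ => x - 1) P := by
      rw [cfc_sub (R := ℝ) (fun x => x) (fun _ => 1) P, cfc_id' ℝ P, cfc_const_one ℝ P]
    have hsp : ∀ x ∈ spectrum ℝ P, |x - 1| ≤ t := by
      intro x hx
      rw [hP1] at ht'
      exact (norm_apply_le_norm_cfc (fun x : ℝ => x - 1) P hx).trans ht'
    constructor
    · have : cfc (fun x : ℝ => (√x)⁻¹) P - 1 = cfc (fun x : ℝ => (√x)⁻¹ - 1) P := by
        rw [cfc_sub (R := ℝ) (fun x => (√x)⁻¹) (fun _ => 1) P hc2, cfc_const_one ℝ P]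
      change ‖cfc (fun x : ℝ => (√x)⁻¹) P - 1‖ ≤ t
      rw [this]
      refine norm_cfc_le ht0 fun x hx => ?_
      have h1 := hsp x hx
      have h2 := hs x hx
      have h3 : 0 < √x := Real.sqrt_pos.2 h2
      have h4 : √x ^ 2 = x := Real.sq_sqrt h2.le
      rw [abs_le] at h1
      rw [Real.norm_eq_abs, abs_le]
      set s := √x
      constructor
      · -- s ≤ 1 + t
        have h5 : (1 - t) * s ≤ 1 := by
          by_contra hcon
          push Not at hcon
          have h6 : 1 < ((1 - t) * s) ^ 2 := by nlinarith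
          have h7 : ((1 - t) * s) ^ 2 = (1 - t) ^ 2 * x := by rw [mul_pow, h4]
          rw [h7] at h6
          nlinarith [sq_nonneg (1 - t), mul_nonneg ht0 ht0]
        have h6 : (1 - t) ≤ s⁻¹ := by
          rw [le_inv_comm₀ (by linarith) h3]
          rw [← one_div, le_div_iff₀ (by linarith)]
          linarith
        linarith
      · have h5 : 1 ≤ (1 + t) * s := by
          by_contra hcon
          push Not at hcon
          have h6 : ((1 + t) * s) ^ 2 < 1 := by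
            have : 0 < (1 + t) * s := by positivity
            nlinarith
          have h7 : ((1 + t) * s) ^ 2 = (1 + t) ^ 2 * x := by rw [mul_pow, h4]
          rw [h7] at h6
          nlinarith [sq_nonneg (1 + t), mul_nonneg ht0 ht0, mul_nonneg (mul_nonneg ht0 ht0) ht0]
        have h6 : s⁻¹ ≤ 1 + t := by
          rw [inv_le_iff_one_le_mul₀ h3]
          linarith
        linarith
    · have : cfc (fun x : ℝ => √x) P - 1 = cfc (fun x : ℝ => √x - 1) P := by
        rw [cfc_sub (R := ℝ) (fun x => √x) (fun _ => 1) P hc1, cfc_const_one ℝ P]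
      change ‖cfc (fun x : ℝ => √x) P - 1‖ ≤ t
      rw [this]
      refine norm_cfc_le ht0 fun x hx => ?_
      have h1 := hsp x hx
      have h2 := hs x hx
      have h3 : 0 < √x := Real.sqrt_pos.2 h2
      have h4 : √x ^ 2 = x := Real.sq_sqrt h2.le
      rw [abs_le] at h1
      rw [Real.norm_eq_abs, abs_le]
      set s := √x
      constructor
      · nlinarith
      · nlinarith

end

section

variable {A : Type u} {B : Type v} [CStarAlgebra A] [CStarAlgebra B]

/-- If `P = ξ⁻²` intertwines `u` and its adjoint, then `ξ u ξ⁻¹` preserves adjoints. -/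
lemma sim_of_root (u : A →ₐ[ℂ] B) (P : B) (ξ : Bˣ) (hξ : star (ξ : B) = ξ)
    (hP : ((ξ⁻¹ : Bˣ) : B) * ((ξ⁻¹ : Bˣ) : B) = P)
    (h : ∀ x, u x * P = P * star (u (star x))) (x : A) :
    (ξ : B) * u (star x) * ((ξ⁻¹ : Bˣ) : B) = star ((ξ : B) * u x * ((ξ⁻¹ : Bˣ) : B)) := by
  have hξ' : star ((ξ⁻¹ : Bˣ) : B) = ((ξ⁻¹ : Bˣ) : B) := by
    have h1 : star ((ξ⁻¹ : Bˣ) : B) * (ξ : B) = 1 := by
      calc star ((ξ⁻¹ : Bˣ) : B) * (ξ : B) = star ((ξ⁻¹ : Bˣ) : B) * star (ξ : B) := by rw [hξ]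
        _ = star ((ξ : B) * ((ξ⁻¹ : Bˣ) : B)) := (star_mul _ _).symm
        _ = 1 := by rw [Units.mul_inv, star_one]
    exact (Units.inv_eq_of_mul_eq_one_left h1).symm
  have h1 := h (star x)
  rw [star_star, ← hP] at h1
  rw [star_mul, star_mul, hξ, hξ']
  have h2 : (ξ : B) * (u (star x) * (((ξ⁻¹ : Bˣ) : B) * ((ξ⁻¹ : Bˣ) : B))) * (ξ : B) =
      (ξ : B) * (((ξ⁻¹ : Bˣ) : B) * ((ξ⁻¹ : Bˣ) : B) * star (u x)) * (ξ : B) := by rw [h1]
  have e1 : (ξ : B) * (u (star x) * (((ξ⁻¹ : Bˣ) : B) * ((ξ⁻¹ : Bˣ) : B))) * (ξ : B) =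
      (ξ : B) * u (star x) * ((ξ⁻¹ : Bˣ) : B) := by
    simp only [mul_assoc, Units.inv_mul, mul_one]
  have e2 : (ξ : B) * (((ξ⁻¹ : Bˣ) : B) * ((ξ⁻¹ : Bˣ) : B) * star (u x)) * (ξ : B) =
      ((ξ⁻¹ : Bˣ) : B) * (star (u x) * (ξ : B)) := by
    simp only [mul_assoc, Units.mul_inv_cancel_left]
  rw [e1, e2] at h2
  exact h2

/-- The defect `u(x) - u(x*)*`, as a linear map. -/
def defect (u : A →ₐ[ℂ] B) : A →ₗ[ℂ] B where
  toFun x := u x - star (u (star x))
  map_add' x y := by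
    rw [map_add, star_add, map_add, star_add]
    abel
  map_smul' c x := by
    rw [map_smul, star_smul, map_smul, star_smul, star_star, RingHom.id_apply, smul_sub]

lemma defect_apply (u : A →ₐ[ℂ] B) (x : A) : defect u x = u x - star (u (star x)) := rfl

lemma norm_defect_le (u : A →ₐ[ℂ] B) {c : ℝ} (hc : 1 ≤ c) (hu : ∀ x, ‖u x‖ ≤ c * ‖x‖) (x : A) :
    ‖defect u x‖ ≤ 2 * ((c ^ 2 - 1) * c) * ‖x‖ := by
  have hc2 : 0 ≤ c ^ 2 - 1 := by nlinarith
  have hun : ∀ v : unitary A, ‖defect u (v : A)‖ ≤ (c ^ 2 - 1) * c := by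
    intro v
    have hv : ∀ w : unitary A, ‖(w : A)‖ ≤ 1 := by
      intro w
      rcases subsingleton_or_nontrivial A with hA | hA
      · rw [Subsingleton.elim (w : A) 0, norm_zero]
        exact zero_le_one
      · exact (CStarRing.norm_coe_unitary w).le
    have h1 : u (star (v : A)) * u (v : A) = 1 := by
      rw [← map_mul, Unitary.coe_star_mul_self, map_one]
    have h2 : u (v : A) * u (star (v : A)) = 1 := by
      rw [← map_mul, Unitary.mul_star_self_of_mem v.2, map_one]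
    have h3 : ‖u (v : A)‖ ≤ c := (hu _).trans (by nlinarith [hv v, norm_nonneg (v : A)])
    have h4 : ‖u (star (v : A))‖ ≤ c :=
      (hu _).trans (by rw [norm_star]; nlinarith [hv v, norm_nonneg (v : A)])
    have h5 := norm_star_sub_inv_le _ _ h1 h2 hc h4 h3
    rw [defect_apply, ← norm_neg, neg_sub]
    exact h5
  obtain ⟨v, a, hx, ha⟩ := CStarAlgebra.exists_sum_four_unitary x
  have e : defect u x = ∑ i, a i • defect u (v i : A) := by
    conv_lhs => rw [hx]
    rw [map_sum]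
    simp only [map_smul]
  rw [e]
  refine (norm_sum_le _ _).trans ?_
  have : ∀ i ∈ Finset.univ, ‖a i • defect u (v i : A)‖ ≤ ‖x‖ / 2 * ((c ^ 2 - 1) * c) := by
    intro i _
    rw [norm_smul]
    exact mul_le_mul (ha i) (hun _) (norm_nonneg _) (by positivity)
  refine (Finset.sum_le_sum this).trans (le_of_eq ?_)
  rw [Finset.sum_const, Finset.card_univ, Fintype.card_fin]
  ring

end

end Pool.Agent.TH845.Kad
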